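import Pool.Agent.H65.CM4.Targets1b

/-!
# Row A_RAM of the board cm4_modules: the expansion in additive characters
-/

set_option autoImplicit false

open MeasureTheory Set Filter NumberField NumberField.InfinitePlace Pool.Agent.H65.CM4
open scoped Real nonZeroDivisors

namespace Pool.Agent.H74.CM4

section

variable {k : Type} [Field k] [NumberField k] [IsTotallyReal k]

/-- the character -/
noncomputable def ch (x : k) : ℂ :=
  Complex.exp (2 * π * ((Algebra.trace ℚ k x : ℚ) : ℂ) * Complex.I)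

omit [IsTotallyReal k] in
theorem ch_add (x y : k) : ch (x + y) = ch x * ch y := by
  unfold ch
  rw [← Complex.exp_add, map_add]
  congr 1
  push_cast
  ring

omit [IsTotallyReal k] in
theorem ch_eq_one_iff (x : k) : ch x = 1 ↔ ∃ n : ℤ, Algebra.trace ℚ k x = n := by
  unfold ch
  rw [Complex.exp_eq_one_iff]
  constructor
  · rintro ⟨n, hn⟩
    refine ⟨n, ?_⟩
    have h3 : (2 * π * Complex.I : ℂ) ≠ 0 := Complex.two_pi_I_ne_zero
    have h4 : (2 * π * Complex.I : ℂ) * ((Algebra.trace ℚ k x : ℚ) : ℂ) = (2 * π * Complex.I) * n := by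
      linear_combination hn
    have h5 := mul_left_cancel₀ h3 h4
    exact_mod_cast h5
  · rintro ⟨n, hn⟩
    refine ⟨n, ?_⟩
    rw [hn]
    push_cast
    ring

omit [IsTotallyReal k] in
theorem ch_int {x : k} (h : Int' x) : ch x = 1 := by
  obtain ⟨y, rfl⟩ := h
  rw [ch_eq_one_iff]
  exact ⟨Algebra.trace ℤ (𝓞 k) y, (Algebra.coe_trace_int y).symm⟩

omit [NumberField k] [IsTotallyReal k] in
theorem int'_iff (x : k) : Int' x ↔ x ∈ (1 : FractionalIdeal (𝓞 k)⁰ k) := by
  rw [FractionalIdeal.mem_one_iff]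
  rfl

omit [IsTotallyReal k] in
theorem le_den_iff (J : Ideal (𝓞 k)) (hJ : J ≠ ⊥) (c : k) :
    J ≤ den c ↔ c ∈ ((J : FractionalIdeal (𝓞 k)⁰ k))⁻¹ := by
  rw [FractionalIdeal.mem_inv_iff (by simpa using hJ)]
  constructor
  · intro h y hy
    obtain ⟨a, ha, rfl⟩ := (FractionalIdeal.mem_coeIdeal _).1 hy
    have h1 : Int' ((a : k) * c) := h ha
    rw [mul_comm, ← int'_iff]
    exact h1
  · intro h a ha
    have h1 := h (a : k) ((FractionalIdeal.mem_coeIdeal _).2 ⟨a, ha, rfl⟩)
    change Int' ((a : k) * c)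
    rw [mul_comm, int'_iff]
    exact h1

omit [NumberField k] [IsTotallyReal k] in
theorem cast_int (n : ℤ) : ((n : 𝓞 k) : k) = (n : k) := map_intCast (algebraMap (𝓞 k) k) n

omit [IsTotallyReal k] in
theorem cast_discr : ((discr k : 𝓞 k) : k) = (discr k : k) := cast_int _

omit [IsTotallyReal k] in
/-- the codifferent -/
theorem ram_codiff (y : k) (h : ∀ o : 𝓞 k, ch (y * (o : k)) = 1) : Int' ((discr k : k) * y) := by
  have h1 : y ∈ FractionalIdeal.dual ℤ ℚ (1 : FractionalIdeal (𝓞 k)⁰ k) := by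
    rw [FractionalIdeal.mem_dual (one_ne_zero : (1 : FractionalIdeal (𝓞 k)⁰ k) ≠ 0)]
    intro a ha
    obtain ⟨o, rfl⟩ := (FractionalIdeal.mem_one_iff _).1 ha
    obtain ⟨n, hn⟩ := (ch_eq_one_iff _).1 (h o)
    refine ⟨n, ?_⟩
    rw [Algebra.traceForm_apply]
    exact hn.symm
  have h2 : ((discr k : 𝓞 k) : k) ∈ (FractionalIdeal.dual ℤ ℚ (1 : FractionalIdeal (𝓞 k)⁰ k))⁻¹ := by
    rw [← coeIdeal_differentIdeal]
    exact (FractionalIdeal.mem_coeIdeal _).2 ⟨_, discr_mem_differentIdeal k (𝓞 k), rfl⟩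
  rw [FractionalIdeal.mem_inv_iff (FractionalIdeal.dual_ne_zero _ _
    (one_ne_zero : (1 : FractionalIdeal (𝓞 k)⁰ k) ≠ 0))] at h2
  have h3 := h2 y h1
  rw [int'_iff, ← cast_discr]
  exact h3

omit [IsTotallyReal k] in
theorem ram_mem (J : Ideal (𝓞 k)) (hJ : J ≠ ⊥) (x : 𝓞 k)
    (hb : J ⊔ Ideal.span {(dk k : 𝓞 k)} = ⊤)
    (h : ∀ c : k, J ≤ den c → ch (c * (x : k)) = 1) : x ∈ J := by
  -- `d x ∈ J`
  have h1 : ((discr k : 𝓞 k) * x) ∈ J := by
    have h2 : (((discr k : 𝓞 k) * x : 𝓞 k) : k) ∈
        (((J : FractionalIdeal (𝓞 k)⁰ k))⁻¹)⁻¹ := by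
      rw [FractionalIdeal.mem_inv_iff (inv_ne_zero (by simpa using hJ))]
      intro c hc
      rw [← le_den_iff J hJ] at hc
      have h3 := ram_codiff (c * (x : k)) (fun o => by
        have h4 : J ≤ den (c * (o : k)) := by
          intro a ha
          obtain ⟨z, hz⟩ := hc ha
          refine ⟨z * o, ?_⟩
          have h5 : ((z * o : 𝓞 k) : k) = (z : k) * (o : k) := rfl
          rw [h5, hz, mul_assoc]
        have h6 := h _ h4
        rw [← h6]
        congr 1
        ring)
      rw [int'_iff] at h3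
      have h7 : (((discr k : 𝓞 k) * x : 𝓞 k) : k) * c = (discr k : k) * (c * (x : k)) := by
        have h8 : (((discr k : 𝓞 k) * x : 𝓞 k) : k) = ((discr k : 𝓞 k) : k) * (x : k) := rfl
        rw [h8, cast_discr]
        ring
      rw [h7]
      exact h3
    rw [inv_inv] at h2
    obtain ⟨a, ha, hae⟩ := (FractionalIdeal.mem_coeIdeal _).1 h2
    have h8 : a = (discr k : 𝓞 k) * x := by
      apply RingOfIntegers.coe_injective
      exact hae
    rwa [← h8]
  have h2 : ((dk k : 𝓞 k) * x) ∈ J := by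
    unfold dk
    rcases Int.natAbs_eq (discr k) with h3 | h3
    · have h4 : ((discr k : 𝓞 k)) = (((discr k).natAbs : ℕ) : 𝓞 k) := by
        conv_lhs => rw [h3]
        simp
      rwa [h4] at h1
    · have h4 : ((discr k : 𝓞 k)) = -(((discr k).natAbs : ℕ) : 𝓞 k) := by
        conv_lhs => rw [h3]
        simp
      rw [h4, neg_mul] at h1
      exact (Submodule.neg_mem_iff _).1 h1
  -- combine with coprimality
  have h3 : (1 : 𝓞 k) ∈ J ⊔ Ideal.span {(dk k : 𝓞 k)} := by rw [hb]; trivial
  obtain ⟨p, hp, q, hq, hpq⟩ := Submodule.mem_sup.1 h3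
  obtain ⟨r, rfl⟩ := Ideal.mem_span_singleton'.1 hq
  have h4 : x = x * p + r * ((dk k : 𝓞 k) * x) := by
    linear_combination (-x) * hpq
  rw [h4]
  exact J.add_mem (J.mul_mem_left _ hp) (J.mul_mem_left _ h2)

/-- the sum over the fractions with denominators dividing `J` -/
theorem ram_orth (R : Ch k) (J : Ideal (𝓞 k)) (hJ : J ≠ ⊥) (x : 𝓞 k)
    (hb : J ⊔ Ideal.span {(dk k : 𝓞 k)} = ⊤) (T : Finset k)
    (hT : ∀ a, a ∈ T ↔ a ∈ R.U ∧ J ≤ den a) (hc : T.card = Ideal.absNorm J) [Decidable (x ∈ J)] :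
    ∑ a ∈ T, ch (a * (x : k)) = if x ∈ J then (Ideal.absNorm J : ℂ) else 0 := by
  split_ifs with hx
  · have h1 : ∀ a ∈ T, ch (a * (x : k)) = 1 := by
      intro a ha
      apply ch_int
      have h2 := ((hT a).1 ha).2 hx
      rw [mul_comm]
      exact h2
    rw [Finset.sum_congr rfl h1]
    simp [hc]
  · obtain ⟨c, hcJ, hcx⟩ : ∃ c : k, J ≤ den c ∧ ch (c * (x : k)) ≠ 1 := by
      by_contra hcon
      push Not at hcon
      exact hx (ram_mem J hJ x hb hcon)
    choose rep hrep using fun y : k => (R.ru y).exists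
    have hmaps : ∀ d : k, J ≤ den d → ∀ a ∈ T, rep (a + d) ∈ T := by
      intro d hd a ha
      obtain ⟨h1, h2⟩ := (hT a).1 ha
      obtain ⟨h3, h4⟩ := hrep (a + d)
      refine (hT _).2 ⟨h3, ?_⟩
      rw [le_den_iff J hJ] at h2 hd ⊢
      have h5 : rep (a + d) = a + d - (a + d - rep (a + d)) := by ring
      rw [h5]
      have h6 : J ≤ den (a + d - rep (a + d)) := by
        intro z _
        obtain ⟨w, hw⟩ := h4
        refine ⟨z * w, ?_⟩
        rw [← hw]
        rfl
      rw [le_den_iff J hJ] at h6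
      exact Submodule.sub_mem _ (Submodule.add_mem _ h2 hd) h6
    have huni : ∀ y a : k, a ∈ R.U → Int' (y - a) → rep y = a := fun y a h1 h2 =>
      (R.ru y).unique (hrep y) ⟨h1, h2⟩
    have hneg : J ≤ den (-c) := by
      rw [le_den_iff J hJ] at hcJ ⊢
      exact Submodule.neg_mem _ hcJ
    have hinv : ∀ d : k, ∀ a ∈ T, rep (rep (a + d) + -d) = a := by
      intro d a ha
      refine huni _ _ ((hT a).1 ha).1 ?_
      obtain ⟨_, w, hw⟩ := hrep (a + d)
      refine ⟨-w, ?_⟩
      have h1 : ((-w : 𝓞 k) : k) = -(w : k) := rfl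
      rw [h1, hw]
      ring
    have hch : ∀ a : k, ch (rep (a + c) * (x : k)) = ch (a * (x : k)) * ch (c * (x : k)) := by
      intro a
      obtain ⟨_, w, hw⟩ := hrep (a + c)
      have h1 : (a + c) * (x : k) = rep (a + c) * (x : k) + (w : k) * (x : k) := by
        rw [hw]
        ring
      rw [← ch_add, ← add_mul, h1, ch_add,
        ch_int (x := (w : k) * (x : k)) ⟨w * x, rfl⟩, mul_one]
    have hsum : ∑ a ∈ T, ch (a * (x : k)) = ∑ a ∈ T, ch (a * (x : k)) * ch (c * (x : k)) := by
      symm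
      refine Finset.sum_bij' (fun a _ => rep (a + c)) (fun a _ => rep (a + -c))
        (fun a ha => hmaps c hcJ a ha) (fun a ha => hmaps (-c) hneg a ha) ?_ ?_ ?_
      · intro a ha
        exact hinv c a ha
      · intro a ha
        have h1 := hinv (-c) a ha
        rwa [neg_neg] at h1
      · intro a _
        exact (hch a).symm
    rw [← Finset.sum_mul] at hsum
    have h1 : (∑ a ∈ T, ch (a * (x : k))) * (1 - ch (c * (x : k))) = 0 := by
      linear_combination hsum
    rcases mul_eq_zero.1 h1 with h2 | h2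
    · exact h2
    · exact absurd (by linear_combination -h2) hcx

open Classical in
/-- the value of the sum of the fractions with a squarefree denominator -/
theorem ram_key (hRPC : T_RPC k) (R : Ch k) (x : 𝓞 k) (s : Finset (Ideal (𝓞 k))) :
    (∀ P ∈ s, Prime P) → (∏ P ∈ s, P) ⊔ Ideal.span {(dk k : 𝓞 k)} = ⊤ →
    ∑ a ∈ Rp R (∏ P ∈ s, P), ch (a * (x : k)) = ∏ P ∈ s, (if x ∈ P then (nm P : ℂ) - 1 else -1) := by
  have hmemRp : ∀ J : Ideal (𝓞 k), J ≠ ⊥ → ∀ a : k, a ∈ Rp R J ↔ a ∈ R.U ∧ den a = J := by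
    intro J hJ a
    have h1 : {a : k | a ∈ R.U ∧ den a = J}.Finite :=
      (hRPC R J hJ).1.subset fun a ha => ⟨ha.1, ha.2.ge⟩
    unfold Rp
    rw [dif_pos h1, Set.Finite.mem_toFinset]
    rfl
  induction s using Finset.strongInduction with
  | H s ih =>
    intro hs hcop
    set J : Ideal (𝓞 k) := ∏ P ∈ s, P with hJdef
    have hJ : J ≠ ⊥ := by
      rw [hJdef, ← Ideal.zero_eq_bot]
      exact Finset.prod_ne_zero_iff.2 fun P hP => (hs P hP).ne_zero
    obtain ⟨hfin, hcard⟩ := hRPC R J hJ
    have hT : ∀ a, a ∈ hfin.toFinset ↔ a ∈ R.U ∧ J ≤ den a := by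
      intro a
      rw [Set.Finite.mem_toFinset]
      rfl
    have hc : hfin.toFinset.card = Ideal.absNorm J := by
      rw [← hcard, Set.ncard_eq_toFinset_card _ hfin]
    have horth := ram_orth R J hJ x hcop hfin.toFinset hT hc
    have hsub : ∀ t ∈ s.powerset, (∏ P ∈ t, P : Ideal (𝓞 k)) ≠ ⊥ := by
      intro t ht
      rw [← Ideal.zero_eq_bot]
      exact Finset.prod_ne_zero_iff.2 fun P hP => (hs P (Finset.mem_powerset.1 ht hP)).ne_zero
    -- decomposition of the set
    have hdec : hfin.toFinset = s.powerset.biUnion fun t => Rp R (∏ P ∈ t, P) := by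
      ext a
      rw [hT, Finset.mem_biUnion]
      constructor
      · rintro ⟨h1, h2⟩
        have h3 : den a ∣ J := Ideal.dvd_iff_le.2 h2
        have h4 : den a ≠ 0 := fun h => hJ (by rw [h] at h3; exact zero_dvd_iff.1 h3)
        have h5 : UniqueFactorizationMonoid.normalizedFactors J = s.val := by
          have h6 := UniqueFactorizationMonoid.normalizedFactors_prod_of_prime (m := s.val)
            (fun P hP => hs P hP)
          rw [← h6]
          congr 1
          rw [hJdef, Finset.prod_eq_multiset_prod, Multiset.map_id']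
        have h6 : UniqueFactorizationMonoid.normalizedFactors (den a) ≤ s.val := by
          rw [← h5]
          exact (UniqueFactorizationMonoid.dvd_iff_normalizedFactors_le_normalizedFactors h4 hJ).1 h3
        have h7 : (UniqueFactorizationMonoid.normalizedFactors (den a)).Nodup :=
          Multiset.nodup_of_le h6 s.nodup
        refine ⟨⟨_, h7⟩, Finset.mem_powerset.2 (Finset.val_le_iff.1 h6), ?_⟩
        rw [hmemRp _ ?_]
        · refine ⟨h1, ?_⟩
          rw [Finset.prod_eq_multiset_prod, Multiset.map_id']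
          exact (Ideal.prod_normalizedFactors_eq_self h4).symm
        · rw [Finset.prod_eq_multiset_prod, Multiset.map_id']
          rw [Ideal.prod_normalizedFactors_eq_self h4]
          exact h4
      · rintro ⟨t, ht, hat⟩
        rw [hmemRp _ (hsub t ht)] at hat
        refine ⟨hat.1, ?_⟩
        rw [hat.2, ← Ideal.dvd_iff_le]
        exact Finset.prod_dvd_prod_of_subset _ _ _ (Finset.mem_powerset.1 ht)
    have hdisj : (s.powerset : Set (Finset (Ideal (𝓞 k)))).PairwiseDisjoint
        fun t => Rp R (∏ P ∈ t, P) := by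
      intro t ht t' ht' hne
      rw [Function.onFun, Finset.disjoint_left]
      intro a ha ha'
      rw [hmemRp _ (hsub t ht)] at ha
      rw [hmemRp _ (hsub t' ht')] at ha'
      apply hne
      have h1 : ∏ P ∈ t, P = ∏ P ∈ t', P := ha.2.symm.trans ha'.2
      have h2 : ∀ t ∈ s.powerset,
          UniqueFactorizationMonoid.normalizedFactors (∏ P ∈ t, P) = t.val := by
        intro t ht
        have h6 := UniqueFactorizationMonoid.normalizedFactors_prod_of_prime (m := t.val)
          (fun P hP => hs P (Finset.mem_powerset.1 ht hP))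
        rw [← h6]
        congr 1
        rw [Finset.prod_eq_multiset_prod, Multiset.map_id']
      apply Finset.val_injective
      rw [← h2 t ht, ← h2 t' ht', h1]
    rw [hdec, Finset.sum_biUnion hdisj] at horth
    have hprod : (if x ∈ J then (Ideal.absNorm J : ℂ) else 0) =
        ∑ t ∈ s.powerset, ∏ P ∈ t, (if x ∈ P then (nm P : ℂ) - 1 else -1) := by
      rw [← Finset.prod_add_one]
      split_ifs with hx
      · rw [hJdef, map_prod, Nat.cast_prod]
        refine Finset.prod_congr rfl fun P hP => ?_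
        have h1 : x ∈ P := by
          have h2 : J ≤ P := Ideal.dvd_iff_le.1 (Finset.dvd_prod_of_mem _ hP)
          exact h2 hx
        rw [if_pos h1]
        unfold nm
        push_cast
        ring
      · obtain ⟨P, hP, hxP⟩ : ∃ P ∈ s, x ∉ P := by
          by_contra hcon
          push Not at hcon
          apply hx
          have h1 : J ∣ Ideal.span {x} := by
            rw [hJdef]
            refine Finset.prod_primes_dvd _ hs fun P hP => ?_
            rw [Ideal.dvd_span_singleton]
            exact hcon P hP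
          rwa [Ideal.dvd_span_singleton] at h1
        symm
        apply Finset.prod_eq_zero hP
        rw [if_neg hxP]
        ring
    rw [hprod] at horth
    have hins : s.powerset = insert s s.ssubsets := by
      ext t
      simp only [Finset.mem_powerset, Finset.mem_insert, Finset.mem_ssubsets]
      constructor
      · intro h
        rcases h.eq_or_ssubset with h1 | h1
        · exact Or.inl h1
        · exact Or.inr h1
      · rintro (h | h)
        · rw [h]
        · exact h.subset
    have hnot : s ∉ s.ssubsets := fun h => (Finset.mem_ssubsets.1 h).ne rfl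
    rw [hins, Finset.sum_insert hnot, Finset.sum_insert hnot] at horth
    have hrest : ∑ t ∈ s.ssubsets, ∑ a ∈ Rp R (∏ P ∈ t, P), ch (a * (x : k)) =
        ∑ t ∈ s.ssubsets, ∏ P ∈ t, (if x ∈ P then (nm P : ℂ) - 1 else -1) := by
      refine Finset.sum_congr rfl fun t ht => ?_
      have ht' := Finset.mem_ssubsets.1 ht
      refine ih t ht' (fun P hP => hs P (ht'.subset hP)) ?_
      rw [eq_top_iff, ← hcop]
      exact sup_le_sup_right (Ideal.le_of_dvd (Finset.prod_dvd_prod_of_subset _ _ _ ht'.subset)) _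
    rw [hrest] at horth
    exact add_right_cancel horth

theorem ee_sq2 (hEMB : T_EMB k) (Q : QF k) (a : k) (u : V2 k) :
    ee Q (sq2 a u) = ch (a * (val Q u : k)) := by
  have h1 : ∑ v : Pl k, (rv v (Q.1 : k) * (sq2 a u v).1 + rv v (Q.2.1 : k) * (sq2 a u v).2.1 +
      rv v (Q.2.2 : k) * (sq2 a u v).2.2) = ∑ v : Pl k, rv v (a * (val Q u : k)) := by
    refine Finset.sum_congr rfl fun v _ => ?_
    have h2 : (val Q u : k) = (Q.1 : k) * (u.1 : k) ^ 2 + (Q.2.1 : k) * ((u.1 : k) * (u.2 : k)) +
        (Q.2.2 : k) * (u.2 : k) ^ 2 := rfl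
    rw [h2]
    simp only [sq2, map_mul, map_add, map_pow]
    ring
  unfold ee ch
  rw [h1, hEMB.2.2.2.2.1]
  congr 1

end

section

variable (k : Type) [Field k] [NumberField k] [IsTotallyReal k]

theorem pf_RAM (hEMB : T_EMB k) (_hFLS : T_FLS k) (_hCRT : T_CRT k) (hDVP : T_DVP k)
    (_hRFM : T_RFM k) (hRPC : T_RPC k) : T_RAM k := by
  classical
  intro R b I u Q hAdm hI hsq hb hu
  constructor
  · intro a
    have h1 : {a : k | a ∈ R.U ∧ den a = I}.Finite :=
      (hRPC R I hI).1.subset fun a ha => ⟨ha.1, ha.2.ge⟩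
    unfold Rp
    rw [dif_pos h1, Set.Finite.mem_toFinset]
    rfl
  · have hprod : (∏ P ∈ pf I, P) = I := by
      unfold pf
      have h1 := (UniqueFactorizationMonoid.squarefree_iff_nodup_normalizedFactors hI).1 hsq
      rw [Finset.prod_eq_multiset_prod, Multiset.map_id', Multiset.toFinset_val, h1.dedup]
      exact Ideal.prod_normalizedFactors_eq_self hI
    have hprime : ∀ P ∈ pf I, Prime P := by
      intro P hP
      exact UniqueFactorizationMonoid.prime_of_normalized_factor _ (Multiset.mem_toFinset.1 hP)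
    have hdk : I ⊔ Ideal.span {(dk k : 𝓞 k)} = ⊤ := by
      rw [eq_top_iff, ← hb]
      refine sup_le_sup_left ?_ _
      rw [Ideal.span_singleton_le_span_singleton]
      have h1 : dk k ∣ b := (Dvd.intro _ rfl).trans hAdm.2
      exact_mod_cast Nat.cast_dvd_cast h1
    have h1 := ram_key hRPC R (val Q u) (pf I) hprime (by rw [hprod]; exact hdk)
    rw [hprod] at h1
    rw [Finset.sum_congr rfl fun a _ => ee_sq2 hEMB Q a u, h1]
    unfold Rn
    push_cast
    refine Finset.prod_congr rfl fun P hP => ?_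
    have hPp : P.IsPrime := Ideal.isPrime_of_prime (hprime P hP)
    have hPd : P ∣ I :=
      UniqueFactorizationMonoid.dvd_of_mem_normalizedFactors (Multiset.mem_toFinset.1 hP)
    have h2 := hDVP I P u Q hI hPp hPd hu
    by_cases h3 : val Q u ∈ P
    · rw [if_pos h3, if_pos (h2.2 h3)]
      push_cast
      ring
    · rw [if_neg h3, if_neg fun h => h3 (h2.1 h)]
      push_cast
      ring

end

end Pool.Agent.H74.CM4
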