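import Pool.Agent.H89.CM4.Targets2

/-!
# Row B_CVR of the board cm4_modules: covering by cells
-/

set_option autoImplicit false

open MeasureTheory Set Filter NumberField NumberField.InfinitePlace Pool.Agent.H65.CM4
  Pool.Agent.H89.CM4
open scoped Real

namespace Pool.Agent.H74.CM4

theorem cvr_bounds {B y r a b c D : ℝ} (hB : 1 ≤ B) (hy : 1 ≤ y) (hr : 1 ≤ r)
    (h1 : y / (B * r) ≤ a) (h2 : a ≤ B * y / r) (h3 : |b| ≤ B * y) (h4 : y ^ 2 / B ≤ D)
    (h5 : D ≤ B * y ^ 2) (hD : D = 4 * (a * c) - b ^ 2) :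
    0 < a ∧ r * a ≤ B * y ∧ 0 < c ∧ c ≤ B ^ 3 * y * r ∧ |b / (2 * a)| ≤ B ^ 2 * r ∧
      0 ≤ √D / (2 * a) ∧ √D / (2 * a) ≤ B ^ 2 * r ∧ r / (2 * B ^ 2) ≤ √D / (2 * a) := by
  have hB0 : 0 < B := by linarith
  have hy0 : 0 < y := by linarith
  have hr0 : 0 < r := by linarith
  have hBr : 0 < B * r := mul_pos hB0 hr0
  have ha : 0 < a := lt_of_lt_of_le (div_pos hy0 hBr) h1
  have h6 : y ≤ a * (B * r) := (div_le_iff₀ hBr).1 h1
  have h7 : a * r ≤ B * y := (le_div_iff₀ hr0).1 h2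
  have hb2 : b ^ 2 ≤ (B * y) ^ 2 := by
    rw [← sq_abs b]
    exact pow_le_pow_left₀ (abs_nonneg b) h3 2
  have hD0 : 0 < D := lt_of_lt_of_le (by positivity) h4
  have hac : 4 * (a * c) = D + b ^ 2 := by linarith
  have hac0 : 0 < a * c := by nlinarith [sq_nonneg b]
  have hc : 0 < c := by
    rcases lt_or_ge 0 c with h | h
    · exact h
    · exact absurd hac0 (not_lt.2 (mul_nonpos_of_nonneg_of_nonpos ha.le h))
  have hBB : B ≤ B ^ 2 := by nlinarith
  have hDle : D ≤ (B * y) ^ 2 := by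
    refine h5.trans ?_
    rw [mul_pow]
    exact mul_le_mul_of_nonneg_right hBB (sq_nonneg y)
  have hcle : c ≤ B ^ 3 * y * r := by
    have h8 : a * c ≤ a * (B ^ 3 * y * r) := by
      have h9 : a * (B ^ 3 * y * r) = B ^ 2 * y * (a * (B * r)) := by ring
      rw [h9]
      have h10 : B ^ 2 * y * y ≤ B ^ 2 * y * (a * (B * r)) :=
        mul_le_mul_of_nonneg_left h6 (by positivity)
      nlinarith
    exact le_of_mul_le_mul_left h8 ha
  have h2a : 0 < 2 * a := by linarith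
  have hkey : B * y ≤ B ^ 2 * r * (2 * a) := by
    have h8 : B * y ≤ B * (a * (B * r)) := mul_le_mul_of_nonneg_left h6 hB0.le
    have h9 : 0 ≤ B ^ 2 * r * a := by positivity
    nlinarith
  have hs1 : √D ≤ B * y := by
    rw [← Real.sqrt_sq (by positivity : 0 ≤ B * y)]
    exact Real.sqrt_le_sqrt hDle
  have hs2 : y / B ≤ √D := by
    rw [← Real.sqrt_sq (by positivity : 0 ≤ y / B)]
    apply Real.sqrt_le_sqrt
    refine le_trans ?_ h4
    rw [div_pow]
    exact div_le_div_of_nonneg_left (by positivity) hB0 hBB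
  refine ⟨ha, by linarith, hc, hcle, ?_, by positivity, ?_, ?_⟩
  · rw [abs_div, abs_of_pos h2a, div_le_iff₀ h2a]
    exact h3.trans hkey
  · rw [div_le_iff₀ h2a]
    exact hs1.trans hkey
  · rw [div_le_div_iff₀ (by positivity) h2a]
    have h8 : B * y = (y / B) * B ^ 2 := by
      field_simp
    have h9 : (y / B) * B ^ 2 ≤ √D * B ^ 2 := mul_le_mul_of_nonneg_right hs2 (by positivity)
    nlinarith

/-- the integers of absolute value at most `x + 1` -/
noncomputable def cvI (x : ℝ) : Finset ℤ := Finset.Icc (-⌈x⌉) ⌈x⌉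

theorem cvI_mem {x t : ℝ} (h : |t| ≤ x) : ⌊t⌋ ∈ cvI x := by
  rw [cvI, Finset.mem_Icc]
  obtain ⟨h1, h2⟩ := abs_le.1 h
  constructor
  · rw [Int.le_floor]
    push_cast
    have h3 := Int.le_ceil x
    linarith
  · have h3 : (⌊t⌋ : ℝ) ≤ (⌈x⌉ : ℝ) := (Int.floor_le t).trans (h2.trans (Int.le_ceil x))
    exact_mod_cast h3

theorem cvI_card {x : ℝ} (h : 1 ≤ x) : ((cvI x).card : ℝ) ≤ 5 * x := by
  rw [cvI, Int.card_Icc]
  have h1 : 0 ≤ ⌈x⌉ := by
    have : (0 : ℝ) ≤ (⌈x⌉ : ℝ) := by linarith [Int.le_ceil x]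
    exact_mod_cast this
  have h2 : ((⌈x⌉ + 1 - -⌈x⌉).toNat : ℝ) = 2 * (⌈x⌉ : ℝ) + 1 := by
    have h3 : ((⌈x⌉ + 1 - -⌈x⌉).toNat : ℤ) = 2 * ⌈x⌉ + 1 := by
      rw [Int.toNat_of_nonneg (by linarith)]
      ring
    exact_mod_cast h3
  rw [h2]
  have h3 := Int.ceil_lt_add_one x
  linarith

theorem abs_sub_le_of_floor {X X' m : ℝ} (hm : 0 < m) (h : ⌊X / m⌋ = ⌊X' / m⌋) :
    |X - X'| ≤ m := by
  have h1 := Int.abs_sub_lt_one_of_floor_eq_floor h
  rw [← sub_div, abs_div, abs_of_pos hm, div_lt_one hm] at h1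
  exact h1.le

section

variable (k : Type) [Field k] [NumberField k] [IsTotallyReal k]

open Classical in
theorem pf_CVR (hEMB : T_EMB k) : T_CVR k := by
  intro B hB
  have hn1 : 0 < dg k := hEMB.2.1
  have hcard : Fintype.card (Pl k) = dg k := hEMB.1
  set n : ℝ := (dg k : ℝ) with hn
  have hn' : 1 ≤ n := by
    rw [hn]
    exact_mod_cast hn1
  have hB0 : 0 < B := by linarith
  set K : ℝ := 3 * n * B ^ 3 with hK
  have hB2 : 1 ≤ B ^ 2 := one_le_pow₀ hB
  have hB3 : 1 ≤ B ^ 3 := one_le_pow₀ hB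
  have hBB3 : B ≤ B ^ 3 := by nlinarith
  have hBB2 : B ^ 2 ≤ B ^ 3 := by nlinarith
  have hK3 : 3 * B ^ 3 ≤ K := by
    rw [hK]
    nlinarith
  have hK1 : 1 ≤ K := by linarith
  set C : ℝ := (5 * K) ^ (5 * dg k) with hC
  have hC5 : 5 * K ≤ C := by
    rw [hC]
    exact le_self_pow₀ (by linarith) (by omega)
  have hC1 : 1 ≤ C := by linarith
  refine ⟨C, hC1, ?_⟩
  intro y r d₁ d₂ S hy hr hry hd1 hd1' hd2 hd2' hS
  have hy0 : 0 < y := by linarith
  have hr0 : 0 < r := by linarith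
  have hn0 : 0 < n := by linarith
  -- bounds at each place
  have hb : ∀ Q ∈ S, ∀ v : Pl k, 0 < rv v (Q.1 : k) ∧ r * rv v (Q.1 : k) ≤ B * y ∧
      0 < rv v (Q.2.2 : k) ∧ rv v (Q.2.2 : k) ≤ B ^ 3 * y * r ∧ |zx Q v| ≤ B ^ 2 * r ∧
      0 ≤ zy Q v ∧ zy Q v ≤ B ^ 2 * r ∧ r / (2 * B ^ 2) ≤ zy Q v := by
    intro Q hQ v
    obtain ⟨h1, h2, h3, h4, h5⟩ := hS Q hQ v
    refine cvr_bounds hB hy hr h1 h2 h3 h4 h5 ?_
    have h6 : (dsc Q : k) = 4 * ((Q.1 : k) * (Q.2.2 : k)) - (Q.2.1 : k) ^ 2 := rfl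
    rw [h6, map_sub, map_mul, map_mul, map_pow, map_ofNat]
  -- the cells
  let F : QF k → Pl k → ℤ × ℤ × ℤ × ℤ × ℤ := fun Q v =>
    (⌊rv v (Q.1 : k) / (d₁ * y / (3 * n * r))⌋, ⌊rv v (Q.2.1 : k) / (d₁ * y / (3 * n))⌋,
      ⌊rv v (Q.2.2 : k) / (d₁ * y * r / (3 * n))⌋, ⌊zx Q v / (d₂ * r)⌋, ⌊zy Q v / (d₂ * r)⌋)
  let T : Finset (Pl k → ℤ × ℤ × ℤ × ℤ × ℤ) := Fintype.piFinset fun _ =>
    cvI (K / d₁) ×ˢ cvI (K / d₁) ×ˢ cvI (K / d₁) ×ˢ cvI (K / d₂) ×ˢ cvI (K / d₂)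
  have hm1 : 0 < d₁ * y / (3 * n * r) := by positivity
  have hm2 : 0 < d₁ * y / (3 * n) := by positivity
  have hm3 : 0 < d₁ * y * r / (3 * n) := by positivity
  have hm4 : 0 < d₂ * r := by positivity
  have hFT : ∀ Q ∈ S, F Q ∈ T := by
    intro Q hQ
    rw [Fintype.mem_piFinset]
    intro v
    obtain ⟨h1, h2, h3, h4, h5, h6, h7, _⟩ := hb Q hQ v
    have h8 := (hS Q hQ v).2.2.1
    simp only [Finset.mem_product, F]
    refine ⟨cvI_mem ?_, cvI_mem ?_, cvI_mem ?_, cvI_mem ?_, cvI_mem ?_⟩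
    · rw [abs_div, abs_of_pos hm1, abs_of_pos h1, div_le_div_iff₀ hm1 hd1]
      have h9 : K * (d₁ * y / (3 * n * r)) = B ^ 3 * (d₁ * y) / r := by
        rw [hK]
        field_simp
      rw [h9, le_div_iff₀ hr0]
      have h10 : r * rv v (Q.1 : k) ≤ B ^ 3 * y :=
        h2.trans (mul_le_mul_of_nonneg_right hBB3 hy0.le)
      nlinarith
    · rw [abs_div, abs_of_pos hm2, div_le_div_iff₀ hm2 hd1]
      have h9 : K * (d₁ * y / (3 * n)) = B ^ 3 * (d₁ * y) := by
        rw [hK]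
        field_simp
      rw [h9]
      have h10 : |rv v (Q.2.1 : k)| ≤ B ^ 3 * y :=
        h8.trans (mul_le_mul_of_nonneg_right hBB3 hy0.le)
      nlinarith
    · rw [abs_div, abs_of_pos hm3, abs_of_pos h3, div_le_div_iff₀ hm3 hd1]
      have h9 : K * (d₁ * y * r / (3 * n)) = B ^ 3 * y * r * d₁ := by
        rw [hK]
        field_simp
      rw [h9]
      exact mul_le_mul_of_nonneg_right h4 hd1.le
    · rw [abs_div, abs_of_pos hm4, div_le_div_iff₀ hm4 hd2]
      have h9 : |zx Q v| ≤ K * r := by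
        refine h5.trans (mul_le_mul_of_nonneg_right ?_ hr0.le)
        linarith
      nlinarith
    · rw [abs_div, abs_of_pos hm4, abs_of_nonneg h6, div_le_div_iff₀ hm4 hd2]
      have h9 : zy Q v ≤ K * r := by
        refine h7.trans (mul_le_mul_of_nonneg_right ?_ hr0.le)
        linarith
      nlinarith
  have hTc : (T.card : ℝ) ≤ C * d₁⁻¹ ^ (3 * dg k) * d₂⁻¹ ^ (2 * dg k) := by
    have h1 : T.card = ((cvI (K / d₁)).card * ((cvI (K / d₁)).card * ((cvI (K / d₁)).card *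
        ((cvI (K / d₂)).card * (cvI (K / d₂)).card)))) ^ dg k := by
      simp only [T, Fintype.card_piFinset, Finset.card_product, Finset.prod_const,
        Finset.card_univ, hcard]
    rw [h1]
    push_cast
    have h2 : ((cvI (K / d₁)).card : ℝ) ≤ 5 * K * d₁⁻¹ := by
      have h3 := cvI_card (x := K / d₁) (by rw [le_div_iff₀ hd1]; linarith)
      rw [div_eq_mul_inv, ← mul_assoc] at h3
      exact h3
    have h2' : ((cvI (K / d₂)).card : ℝ) ≤ 5 * K * d₂⁻¹ := by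
      have h3 := cvI_card (x := K / d₂) (by rw [le_div_iff₀ hd2]; linarith)
      rw [div_eq_mul_inv, ← mul_assoc] at h3
      exact h3
    have h4 : C * d₁⁻¹ ^ (3 * dg k) * d₂⁻¹ ^ (2 * dg k) =
        ((5 * K * d₁⁻¹) * ((5 * K * d₁⁻¹) * ((5 * K * d₁⁻¹) *
          ((5 * K * d₂⁻¹) * (5 * K * d₂⁻¹))))) ^ dg k := by
      rw [hC, pow_mul, pow_mul, pow_mul, ← mul_pow, ← mul_pow]
      congr 1
      ring
    rw [h4]
    refine pow_le_pow_left₀ (by positivity) ?_ _
    gcongr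
  refine ⟨fun Q => if h : F Q ∈ T then (T.equivFin ⟨F Q, h⟩ : ℕ) else 0, ?_, ?_⟩
  · intro Q hQ
    refine le_trans ?_ hTc
    simp only [dif_pos (hFT Q hQ)]
    exact_mod_cast (T.equivFin ⟨F Q, hFT Q hQ⟩).2.le
  · intro Q hQ
    have hCB : B ≤ C * B := by nlinarith
    refine ⟨?_, ?_, ?_⟩
    · refine ⟨fun v => (hb Q hQ v).1, fun v => ?_, fun v => ?_, fun v => ?_, fun v => ?_⟩
      · refine (hb Q hQ v).2.1.trans ?_
        exact mul_le_mul_of_nonneg_right hCB hy0.le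
      · refine (hS Q hQ v).2.2.1.trans ?_
        exact mul_le_mul_of_nonneg_right hCB hy0.le
      · refine (hb Q hQ v).2.2.2.1.trans ?_
        have h1 : B ^ 3 ≤ C * B := by
          have h2 : B ^ 3 * 1 ≤ C * B :=
            mul_le_mul (by linarith) hB (by norm_num) (by linarith)
          linarith
        have h2 : B ^ 3 * y ≤ C * B * y := mul_le_mul_of_nonneg_right h1 hy0.le
        exact mul_le_mul_of_nonneg_right h2 hr0.le
      · have h1 : 4 * (rl Q v).1 * (rl Q v).2.2 - (rl Q v).2.1 ^ 2 = rv v (dsc Q : k) := by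
          have h6 : (dsc Q : k) = 4 * ((Q.1 : k) * (Q.2.2 : k)) - (Q.2.1 : k) ^ 2 := rfl
          rw [h6, map_sub, map_mul, map_mul, map_pow, map_ofNat]
          simp only [rl]
          ring
        rw [h1]
        refine le_trans ?_ (hS Q hQ v).2.2.2.1
        exact div_le_div_of_nonneg_left (by positivity) hB0 hCB
    · intro v
      obtain ⟨_, _, _, _, h5, h6, h7, h8⟩ := hb Q hQ v
      have h9 : B ^ 2 * r ≤ C * r := mul_le_mul_of_nonneg_right (by linarith) hr0.le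
      refine ⟨h5.trans h9, le_trans ?_ h8, h7.trans h9⟩
      exact div_le_div_of_nonneg_left hr0.le (by positivity) (by linarith)
    · intro Q' hQ' hff
      have hFF : F Q = F Q' := by
        simp only [dif_pos (hFT Q hQ), dif_pos (hFT Q' hQ')] at hff
        have h1 := T.equivFin.injective (Fin.ext hff)
        exact congrArg Subtype.val h1
      have hc : ∀ v, |rv v (Q.1 : k) - rv v (Q'.1 : k)| ≤ d₁ * y / (3 * n * r) ∧
          |rv v (Q.2.1 : k) - rv v (Q'.2.1 : k)| ≤ d₁ * y / (3 * n) ∧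
          |rv v (Q.2.2 : k) - rv v (Q'.2.2 : k)| ≤ d₁ * y * r / (3 * n) ∧
          |zx Q v - zx Q' v| ≤ d₂ * r ∧ |zy Q v - zy Q' v| ≤ d₂ * r := by
        intro v
        have h1 := congrFun hFF v
        simp only [F, Prod.mk.injEq] at h1
        obtain ⟨h2, h3, h4, h5, h6⟩ := h1
        exact ⟨abs_sub_le_of_floor hm1 h2, abs_sub_le_of_floor hm2 h3,
          abs_sub_le_of_floor hm3 h4, abs_sub_le_of_floor hm4 h5, abs_sub_le_of_floor hm4 h6⟩
      refine ⟨?_, fun v => ?_⟩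
      · unfold dq
        have h1 : ∀ v ∈ (Finset.univ : Finset (Pl k)), ((r * ((rl Q v).1 - (rl Q' v).1)) ^ 2 +
            ((rl Q v).2.1 - (rl Q' v).2.1) ^ 2 + (((rl Q v).2.2 - (rl Q' v).2.2) / r) ^ 2) ≤
            3 * (d₁ * y / (3 * n)) ^ 2 := by
          intro v _
          obtain ⟨h2, h3, h4, _, _⟩ := hc v
          have h5 : |r * ((rl Q v).1 - (rl Q' v).1)| ≤ d₁ * y / (3 * n) := by
            rw [abs_mul, abs_of_pos hr0]
            have h6 : d₁ * y / (3 * n) = r * (d₁ * y / (3 * n * r)) := by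
              field_simp
            rw [h6]
            exact mul_le_mul_of_nonneg_left h2 hr0.le
          have h6 : |((rl Q v).2.2 - (rl Q' v).2.2) / r| ≤ d₁ * y / (3 * n) := by
            rw [abs_div, abs_of_pos hr0, div_le_iff₀ hr0]
            have h7 : d₁ * y / (3 * n) * r = d₁ * y * r / (3 * n) := by ring
            rw [h7]
            exact h4
          have h7 : |(rl Q v).2.1 - (rl Q' v).2.1| ≤ d₁ * y / (3 * n) := h3
          have e5 := pow_le_pow_left₀ (abs_nonneg _) h5 2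
          have e6 := pow_le_pow_left₀ (abs_nonneg _) h6 2
          have e7 := pow_le_pow_left₀ (abs_nonneg _) h7 2
          rw [sq_abs] at e5 e6 e7
          linarith
        refine (Finset.sum_le_sum h1).trans ?_
        rw [Finset.sum_const, Finset.card_univ, hcard, nsmul_eq_mul, ← hn]
        have h2 : n * (3 * (d₁ * y / (3 * n)) ^ 2) = (d₁ * y) ^ 2 / (3 * n) := by
          field_simp
          try ring
        rw [h2]
        exact div_le_self (sq_nonneg _) (by linarith)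
      · obtain ⟨_, _, _, h5, h6⟩ := hc v
        rw [abs_sub_comm] at h5 h6
        exact ⟨h5, h6⟩

end

end Pool.Agent.H74.CM4
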